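import Pool.Agent.Helper89.Hole.Basic

/-!
Maker completes `e` grid lines (problem MP_91a033_co).
-/

namespace KHole

theorem P1.okPos_after {M B R : Finset Pt} {m : Pt} {s : ℕ} (h : OkPos M B) (hm : MakerLegal M B m)
    (hR : BreakerLegal s (insert m M) B R) : OkPos (insert m M) (B ∪ R) := by
  obtain ⟨hd, _⟩ := h
  obtain ⟨hmS, _⟩ := hm
  obtain ⟨_, hRd, hRg⟩ := hR
  refine ⟨?_, ?_⟩
  · rw [Finset.disjoint_left]
    intro z hz hz'
    rw [Finset.mem_insert] at hz
    rw [Finset.mem_union] at hz'
    rcases hz' with hz' | hz'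
    · rcases hz with rfl | hz
      · exact hmS (Finset.mem_union_right _ hz')
      · exact Finset.disjoint_left.1 hd hz hz'
    · refine Finset.disjoint_left.1 hRd hz' ?_
      rw [Finset.mem_union, Finset.mem_insert]
      exact Or.inl hz
  · rw [← Finset.union_assoc]; exact hRg

namespace P1

variable {g r : ℕ} {p : Par g r}

theorem U_pos (hp : p.Generic) (A : Finset (Idx g r)) : 0 < p.U A :=
  Finset.prod_pos (fun b _ => hp.u_pos b)

theorem Free.not_mem {j : Fin r} {A : Finset (Idx g r)} (h : Free j A) (i : Fin g) :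
    (j, i) ∉ A := fun hm => h _ hm rfl

theorem cand_onLine (hp : p.Generic) {j : Fin r} {A B : Finset (Idx g r)} (hA : Free j A)
    (hB : Free j B) (i : Fin g) :
    p.OnLine (insert (j, i) A, insert (j, i) B) (p.cand j A B) := by
  have h1 : p.U (insert (j, i) A) = p.u (j, i) * p.U A := by
    unfold Par.U; rw [Finset.prod_insert (Free.not_mem hA i)]
  have h2 : p.V (insert (j, i) B) = p.v (j, i) + p.V B := by
    unfold Par.V; rw [Finset.sum_insert (Free.not_mem hB i)]
  have h3 := U_pos hp A
  unfold Par.OnLine Par.cand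
  simp only
  rw [h1, h2]
  unfold Par.v
  simp only
  field_simp
  ring

theorem cand_pos (hp : p.Generic) (j : Fin r) (A B : Finset (Idx g r)) :
    0 < (p.cand j A B).1 := div_pos (hp.γ_pos j) (U_pos hp A)

theorem insert_ne {j : Fin r} {A : Finset (Idx g r)} (hA : Free j A) {i i' : Fin g}
    (h : i ≠ i') : insert (j, i) A ≠ insert (j, i') A := by
  intro he
  have h1 : (j, i) ∈ insert (j, i') A := he ▸ Finset.mem_insert_self _ _
  rw [Finset.mem_insert] at h1
  rcases h1 with h1 | h1
  · exact h (congrArg Prod.snd h1)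
  · exact Free.not_mem hA i h1

end P1

theorem P1.finite_linear_roots (β c : ℝ) (h : ¬ (β = 0 ∧ c = 0)) :
    {t : ℝ | β * t + c = 0}.Finite := by
  by_cases hβ : β = 0
  · have : {t : ℝ | β * t + c = 0} = ∅ := by
      ext t
      simp only [Set.mem_ofPred_eq, Set.mem_empty_iff_false, iff_false]
      intro ht
      exact h ⟨hβ, by rw [hβ] at ht; linarith⟩
    rw [this]; exact Set.finite_empty
  · have := finite_quadratic_roots 0 β c (Or.inr hβ)
    refine this.subset ?_
    intro t ht
    simp only [Set.mem_ofPred_eq] at ht ⊢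
    linarith

/-- On a line that contains at most one point of `S` there is a new point to the right of `x0`
which keeps the general position. -/
theorem P1.exists_on_line (S : Finset Pt) (U V x0 : ℝ) (a : Pt)
    (hS : ∀ z ∈ S, z.2 = U * z.1 + V → z = a) :
    ∃ x, x0 < x ∧ ∀ z ∈ S, ∀ z' ∈ S, z ≠ z' → det3 z z' (x, U * x + V) ≠ 0 := by
  have hinf : (Set.Ioi x0).Infinite := Set.Ioi_infinite x0
  have hbad : (⋃ q ∈ (S ×ˢ S).filter (fun q => q.1 ≠ q.2),
      {t : ℝ | ((q.2.1 - q.1.1) * U - (q.2.2 - q.1.2)) * t +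
        ((q.2.1 - q.1.1) * (V - q.1.2) + (q.2.2 - q.1.2) * q.1.1) = 0}).Finite := by
    refine Set.Finite.biUnion (Finset.finite_toSet _) (fun q hq => P1.finite_linear_roots _ _ ?_)
    obtain ⟨hq1, hq2⟩ := Finset.mem_filter.1 (Finset.mem_coe.1 hq)
    obtain ⟨hqa, hqb⟩ := Finset.mem_product.1 hq1
    rintro ⟨h1, h2⟩
    have hne : q.2.1 - q.1.1 ≠ 0 := by
      intro h0
      apply hq2
      rw [h0] at h1
      exact Prod.ext (by linarith) (by linarith)
    have h3 : (q.2.1 - q.1.1) * (V - q.1.2 + U * q.1.1) = 0 := by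
      have : q.2.2 - q.1.2 = (q.2.1 - q.1.1) * U := by linarith
      rw [this] at h2
      linarith
    have h4 : V - q.1.2 + U * q.1.1 = 0 := (mul_eq_zero.1 h3).resolve_left hne
    have h5 : q.1 = a := hS _ hqa (by linarith)
    have h6 : q.2 = a := hS _ hqb (by nlinarith)
    exact hq2 (h5.trans h6.symm)
  obtain ⟨x, hx, hxb⟩ := (hinf.sdiff hbad).nonempty
  refine ⟨x, hx, ?_⟩
  intro z hz z' hz' hne hdet
  apply hxb
  simp only [Set.mem_iUnion]
  refine ⟨(z, z'), Finset.mem_filter.2 ⟨Finset.mem_product.2 ⟨hz, hz'⟩, hne⟩, ?_⟩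
  simp only [Set.mem_ofPred_eq]
  unfold det3 at hdet
  simp only at hdet
  linarith

/-- `Phase1` with a bound for the number of points. -/
def P1.Phase1' {g r : ℕ} (p : Par g r) (N e : ℕ) (n : ℕ) (M B : Finset Pt) : Prop :=
  Phase1 p e n M B ∧ (M ∪ B).card ≤ N * e

theorem reach_phase1 {s r : ℕ} (hs : 1 ≤ s) (p : Par (s+1) r) (hp : p.Generic) (c : ℕ → ℕ)
    (hc : ∀ n, c n ≤ s) (K : ℕ)
    (hcand : ∀ S : Finset Pt, GenPos S → S.card ≤ K * 2 ^ (r * (s+1)) →
      ∃ (j : Fin r) (A B : Finset (Idx (s+1) r)), Free j A ∧ Free j B ∧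
        (∀ i : Fin (s+1), ∀ z ∈ S, ¬ p.OnLine (insert (j,i) A, insert (j,i) B) z) ∧
        (∀ z ∈ S, ∀ z' ∈ S, z ≠ z' → ¬ Collinear ℝ ({z, z', p.cand j A B} : Set Pt)))
    (e : ℕ) (he : 2 * (s+1) * e ≤ K * 2 ^ (r * (s+1))) : Reach c (Phase1 p e) 0 ∅ ∅ := by
  have _ := hs
  have key : ∀ e' : ℕ, e' ≤ e → Reach c (P1.Phase1' p (2 * (s+1)) e') 0 ∅ ∅ := by
    intro e'
    induction e' with
    | zero =>
      intro _
      refine Reach.here _ _ _ ⟨⟨⟨Finset.disjoint_empty_left _, ?_⟩, ∅, rfl, ?_⟩, ?_⟩
      · intro a ha; simp at ha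
      · intro l hl; simp at hl
      · simp
    | succ e' ih =>
      intro hle
      refine (ih (by omega)).trans ?_
      rintro n M B ⟨⟨hok, E, hEc, hE⟩, hcard⟩
      have hcardS : (M ∪ B).card ≤ K * 2 ^ (r * (s+1)) := by
        refine hcard.trans (le_trans ?_ he)
        exact Nat.mul_le_mul_left _ (by omega)
      obtain ⟨j, A, B', hA, hB', hline, hgen⟩ := hcand (M ∪ B) hok.2 hcardS
      set a := p.cand j A B' with ha
      have haline : ∀ i, p.OnLine (insert (j, i) A, insert (j, i) B') a :=
        fun i => P1.cand_onLine hp hA hB' i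
      have haS : a ∉ M ∪ B := fun h => hline 0 a h (haline 0)
      have hdet : ∀ z ∈ M ∪ B, ∀ z' ∈ M ∪ B, z ≠ z' → det3 z z' a ≠ 0 :=
        fun z hz z' hz' hne h0 => hgen z hz z' hz' hne ((collinear_iff_det3 _ _ _).2 h0)
      have hmlegal : MakerLegal M B a := ⟨haS, genPos_insert hok.2 hdet⟩
      refine Reach.step n M B a hmlegal ?_
      intro R hR
      have hok1 := P1.okPos_after hok hmlegal hR
      obtain ⟨hRc, hRd, hRg⟩ := hR
      -- a line free of `R`
      obtain ⟨i, hi⟩ : ∃ i : Fin (s+1), ∀ z ∈ R,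
          ¬ p.OnLine (insert (j, i) A, insert (j, i) B') z := by
        by_contra hcon
        push Not at hcon
        choose f hfR hf using hcon
        have hinj : Function.Injective f := by
          intro i i' hii
          by_contra hne
          have h1 := hf i
          have h2 := hf i'
          rw [← hii] at h2
          have h3 := haline i
          have h4 := haline i'
          have hU : p.U (insert (j, i) A) ≠ p.U (insert (j, i') A) :=
            fun h => P1.insert_ne hA hne (hp.U_inj h)
          unfold Par.OnLine at h1 h2 h3 h4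
          simp only at h1 h2 h3 h4
          have h5 : (p.U (insert (j, i) A) - p.U (insert (j, i') A)) * ((f i).1 - a.1) = 0 := by
            linarith
          have h6 : (f i).1 - a.1 = 0 :=
            (mul_eq_zero.1 h5).resolve_left (sub_ne_zero.2 hU)
          have h7 : (f i).1 = a.1 := by linarith
          have h8 : f i = a := Prod.ext h7 (by rw [h1, h3, h7])
          refine Finset.disjoint_left.1 hRd (hfR i) ?_
          rw [h8, Finset.mem_union, Finset.mem_insert]
          exact Or.inl (Or.inl rfl)
        have h1 : (Finset.univ.image f).card = s + 1 := by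
          rw [Finset.card_image_of_injective _ hinj, Finset.card_univ, Fintype.card_fin]
        have h2 : Finset.univ.image f ⊆ R := by
          intro z hz
          obtain ⟨i, _, rfl⟩ := Finset.mem_image.1 hz
          exact hfR i
        have h3 := Finset.card_le_card h2
        have h4 := hc n
        omega
      have honly : ∀ z ∈ insert a M ∪ (B ∪ R),
          z.2 = p.U (insert (j, i) A) * z.1 + p.V (insert (j, i) B') → z = a := by
        intro z hz hzl
        simp only [Finset.mem_union, Finset.mem_insert] at hz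
        rcases hz with (rfl | hz) | hz | hz
        · rfl
        · exact absurd hzl (hline i z (Finset.mem_union_left _ hz))
        · exact absurd hzl (hline i z (Finset.mem_union_right _ hz))
        · exact absurd hzl (hi z hz)
      obtain ⟨x, hx, hxdet⟩ := P1.exists_on_line (insert a M ∪ (B ∪ R)) (p.U (insert (j, i) A))
        (p.V (insert (j, i) B')) a.1 a honly
      set b : Pt := (x, p.U (insert (j, i) A) * x + p.V (insert (j, i) B')) with hb
      have hbline : p.OnLine (insert (j, i) A, insert (j, i) B') b := rfl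
      have hbS : b ∉ insert a M ∪ (B ∪ R) := by
        intro h
        have := honly b h rfl
        have h1 : b.1 = a.1 := by rw [this]
        have h2 : b.1 = x := rfl
        linarith
      have hblegal : MakerLegal (insert a M) (B ∪ R) b := ⟨hbS, genPos_insert hok1.2 hxdet⟩
      refine Reach.step (n + 1) _ _ b hblegal ?_
      intro R' hR'
      have hok2 := P1.okPos_after hok1 hblegal hR'
      obtain ⟨hRc', _, _⟩ := hR'
      refine Reach.here _ _ _ ⟨⟨hok2, insert (insert (j, i) A, insert (j, i) B') E, ?_, ?_⟩, ?_⟩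
      · rw [Finset.card_insert_of_notMem, hEc]
        intro hmem
        obtain ⟨a', ha', _, _, _, _, hla, _⟩ := hE _ hmem
        exact hline i a' (Finset.mem_union_left _ ha') hla
      · intro l hl
        rw [Finset.mem_insert] at hl
        rcases hl with rfl | hl
        · exact ⟨a, by simp, b, by simp, P1.cand_pos hp j A B', hx, haline i, hbline⟩
        · obtain ⟨a', ha', b', hb', h1, h2, h3, h4⟩ := hE l hl
          exact ⟨a', by simp [ha'], b', by simp [hb'], h1, h2, h3, h4⟩
      · have h1 : insert b (insert a M) ∪ (B ∪ R ∪ R') =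
            insert b (insert a ((M ∪ B) ∪ R ∪ R')) := by
          ext z; simp only [Finset.mem_union, Finset.mem_insert]; tauto
        rw [h1]
        have h2 := Finset.card_insert_le b (insert a ((M ∪ B) ∪ R ∪ R'))
        have h3 := Finset.card_insert_le a ((M ∪ B) ∪ R ∪ R')
        have h4 := Finset.card_union_le ((M ∪ B) ∪ R) R'
        have h5 := Finset.card_union_le (M ∪ B) R
        have h6 := hc n
        have h7 := hc (n+1)
        have h8 : 2 * (s+1) * (e'+1) = 2 * (s+1) * e' + 2 * (s + 1) := by ring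
        omega
  exact (key e le_rfl).trans (fun n M B h => Reach.here _ _ _ h.1)

end KHole
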